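import Mathlib

/-!
# Tuza's inequality for joins `I_k ∨ H` with `H` triangle-free (MP_6ac7a2_co, Q1)

For every `k ≥ 1` and every finite triangle-free graph `H`, `τ(I_k ∨ H) ≤ 2 ν(I_k ∨ H)`.

The proof is by induction on `k`. Take a maximum matching `M` of `H` and a set `S` minimising
`(k-1)|S| + e((H - M) - S)`. Because `H` is triangle-free and `M` is maximum, the `M`-edges that
leave `S` are at least as many as the uncovered vertices of `S`, which gives
`k|S| + e(H - S) ≤ (k-1)|S| + e((H-M)-S) + 2|M|`.
-/

set_option autoImplicit false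

namespace Pool.Agent.Results.MP_6ac7a2_co.TuzaJoin

open Finset Classical

universe u

noncomputable section

/-- The join `I_k ∨ H` of the edgeless graph on `k` vertices and the graph `H`. -/
def join {V : Type u} (k : ℕ) (H : SimpleGraph V) : SimpleGraph (Fin k ⊕ V) where
  Adj
    | Sum.inl _, Sum.inl _ => False
    | Sum.inl _, Sum.inr _ => True
    | Sum.inr _, Sum.inl _ => True
    | Sum.inr a, Sum.inr b => H.Adj a b
  symm := ⟨by
    rintro (a | a) (b | b) h
    · exact h
    · trivial
    · trivial
    · exact SimpleGraph.Adj.symm (G := H) h⟩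
  loopless := ⟨by
    rintro (a | a) h
    · exact h
    · exact H.loopless.irrefl a h⟩

/-- `τ(G)`: the least number of edges whose deletion destroys all triangles. -/
def tau {W : Type u} [Fintype W] (G : SimpleGraph W) : ℕ :=
  sInf {n | ∃ Y : Finset (Sym2 W), (∀ e ∈ Y, e ∈ G.edgeSet) ∧
    (G.deleteEdges (Y : Set (Sym2 W))).CliqueFree 3 ∧ Y.card = n}

/-- `ν(G)`: the largest number of pairwise edge-disjoint triangles of `G` (two triangles are
edge-disjoint when they share at most one vertex). -/
def nu {W : Type u} [Fintype W] (G : SimpleGraph W) : ℕ :=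
  sSup {n | ∃ T : Finset (Finset W), (∀ t ∈ T, G.IsNClique 3 t) ∧
    (∀ t ∈ T, ∀ t' ∈ T, t ≠ t' → (t ∩ t').card ≤ 1) ∧ T.card = n}

variable {V : Type u} [Fintype V]

/-- A matching of `H`, given by the involution that swaps the ends of its edges. -/
structure IsMat (H : SimpleGraph V) (p : V → V) : Prop where
  inv : ∀ v, p (p v) = v
  adj : ∀ v, p v ≠ v → H.Adj v (p v)

/-- vertices covered by the matching -/
def supp (p : V → V) : Finset V := univ.filter (fun v => p v ≠ v)

lemma mem_supp (p : V → V) (v : V) : v ∈ supp p ↔ p v ≠ v := by simp [supp]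

/-- twice the number of edges of `H` inside `D` -/
def e2 (H : SimpleGraph V) (D : Finset V) : ℕ :=
  ((D ×ˢ D).filter (fun x => H.Adj x.1 x.2)).card

lemma exists_max (H : SimpleGraph V) : ∃ p : V → V, IsMat H p ∧
    ∀ q : V → V, IsMat H q → (supp q).card ≤ (supp p).card := by
  have hne : ((univ : Finset (V → V)).filter (fun p => IsMat H p)).Nonempty := by
    refine ⟨id, ?_⟩
    simp only [mem_filter, mem_univ, true_and]
    exact ⟨fun v => rfl, fun v h => absurd rfl h⟩
  obtain ⟨p, hp, hmax⟩ := Finset.exists_max_image _ (fun p => (supp p).card) hne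
  simp only [mem_filter, mem_univ, true_and] at hp hmax
  exact ⟨p, hp, hmax⟩

lemma aug1 {H : SimpleGraph V} {p : V → V} (hp : IsMat H p)
    (hmax : ∀ q : V → V, IsMat H q → (supp q).card ≤ (supp p).card)
    {u w : V} (hu : p u = u) (hw : p w = w) : ¬ H.Adj u w := by
  intro hadj
  have huw : u ≠ w := hadj.ne
  let q : V → V := fun v => if v = u then w else if v = w then u else p v
  have hqu : q u = w := by simp [q]
  have hqw : q w = u := by simp [q, huw.symm]
  have hqo : ∀ v, v ≠ u → v ≠ w → q v = p v := by intro v h1 h2; simp [q, h1, h2]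
  have hq : IsMat H q := by
    constructor
    · intro v
      by_cases h1 : v = u
      · subst h1; rw [hqu, hqw]
      · by_cases h2 : v = w
        · subst h2; rw [hqw, hqu]
        · rw [hqo v h1 h2]
          have h3 : p v ≠ u := fun h => h1 (by rw [← hp.inv v, h, hu])
          have h4 : p v ≠ w := fun h => h2 (by rw [← hp.inv v, h, hw])
          rw [hqo _ h3 h4, hp.inv]
    · intro v hv
      by_cases h1 : v = u
      · subst h1; rw [hqu]; exact hadj
      · by_cases h2 : v = w
        · subst h2; rw [hqw]; exact hadj.symm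
        · rw [hqo v h1 h2] at hv ⊢
          exact hp.adj v hv
  have h5 : supp p ⊂ supp q := by
    rw [Finset.ssubset_iff_of_subset]
    · exact ⟨u, by rw [mem_supp, hqu]; exact huw.symm, by rw [mem_supp]; simp [hu]⟩
    · intro v hv
      rw [mem_supp] at hv ⊢
      have h1 : v ≠ u := by rintro rfl; exact hv hu
      have h2 : v ≠ w := by rintro rfl; exact hv hw
      rwa [hqo v h1 h2]
  have := Finset.card_lt_card h5
  have := hmax q hq
  omega

lemma aug2 {H : SimpleGraph V} {p : V → V} (hp : IsMat H p)
    (hmax : ∀ q : V → V, IsMat H q → (supp q).card ≤ (supp p).card)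
    {u u' w : V} (hu : p u = u) (hu' : p u' = u') (huu : u ≠ u') (hw : p w ≠ w)
    (h1 : H.Adj u w) (h2 : H.Adj u' (p w)) : False := by
  have huw : u ≠ w := h1.ne
  have hu'w : u' ≠ w := by rintro rfl; exact hw hu'
  have huw' : u ≠ p w := by
    intro h
    apply hw
    rw [← h]
    have := hp.inv w
    rw [← h, hu] at this
    exact this
  have hu'w' : u' ≠ p w := h2.ne
  let q : V → V := fun v => if v = u then w else if v = w then u else if v = u' then p w else
    if v = p w then u' else p v
  have hqu : q u = w := by simp [q]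
  have hqw : q w = u := by simp [q, huw.symm]
  have hqu' : q u' = p w := by simp [q, huu.symm, hu'w]
  have hqw' : q (p w) = u' := by simp [q, huw'.symm, hw, hu'w'.symm]
  have hqo : ∀ v, v ≠ u → v ≠ w → v ≠ u' → v ≠ p w → q v = p v := by
    intro v a b c d; simp [q, a, b, c, d]
  have hq : IsMat H q := by
    constructor
    · intro v
      by_cases a : v = u
      · subst a; rw [hqu, hqw]
      by_cases b : v = w
      · subst b; rw [hqw, hqu]
      by_cases c : v = u'
      · subst c; rw [hqu', hqw']
      by_cases d : v = p w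
      · subst d; rw [hqw', hqu']
      rw [hqo v a b c d]
      have a' : p v ≠ u := fun h => a (by rw [← hp.inv v, h, hu])
      have b' : p v ≠ w := fun h => d (by rw [← hp.inv v, h])
      have c' : p v ≠ u' := fun h => c (by rw [← hp.inv v, h, hu'])
      have d' : p v ≠ p w := fun h => b (by rw [← hp.inv v, h, hp.inv])
      rw [hqo _ a' b' c' d', hp.inv]
    · intro v hv
      by_cases a : v = u
      · subst a; rw [hqu]; exact h1
      by_cases b : v = w
      · subst b; rw [hqw]; exact h1.symm
      by_cases c : v = u'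
      · subst c; rw [hqu']; exact h2
      by_cases d : v = p w
      · subst d; rw [hqw']; exact h2.symm
      rw [hqo v a b c d] at hv ⊢
      exact hp.adj v hv
  have h5 : supp p ⊂ supp q := by
    rw [Finset.ssubset_iff_of_subset]
    · exact ⟨u, by rw [mem_supp, hqu]; exact huw.symm, by rw [mem_supp]; simp [hu]⟩
    · intro v hv
      rw [mem_supp] at hv ⊢
      have a : v ≠ u := by rintro rfl; exact hv hu
      have c : v ≠ u' := by rintro rfl; exact hv hu'
      by_cases b : v = w
      · subst b; rw [hqw]; exact huw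
      by_cases d : v = p w
      · subst d; rw [hqw']; exact hu'w'
      rwa [hqo v a b c d]
  have := Finset.card_lt_card h5
  have := hmax q hq
  omega

/-- `H` minus the edges of the matching `p` -/
def minus (H : SimpleGraph V) (p : V → V) (hp : IsMat H p) : SimpleGraph V where
  Adj a b := H.Adj a b ∧ p a ≠ b
  symm := ⟨by
    rintro a b ⟨h1, h2⟩
    exact ⟨h1.symm, fun h => h2 (by rw [← h, hp.inv])⟩⟩
  loopless := ⟨fun a h => H.loopless.irrefl a h.1⟩

lemma minus_adj (H : SimpleGraph V) (p : V → V) (hp : IsMat H p) (a b : V) :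
    (minus H p hp).Adj a b ↔ H.Adj a b ∧ p a ≠ b := Iff.rfl

lemma e2_minus (H : SimpleGraph V) (p : V → V) (hp : IsMat H p) (D : Finset V) :
    e2 H D = e2 (minus H p hp) D + (D.filter (fun v => p v ≠ v ∧ p v ∈ D)).card := by
  unfold e2
  have h1 : (D ×ˢ D).filter (fun x => H.Adj x.1 x.2) =
      (D ×ˢ D).filter (fun x => (minus H p hp).Adj x.1 x.2) ∪
      (D.filter (fun v => p v ≠ v ∧ p v ∈ D)).image (fun v => (v, p v)) := by
    ext ⟨a, b⟩
    simp only [mem_filter, mem_product, mem_union, mem_image, Prod.mk.injEq]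
    simp only [minus_adj]
    constructor
    · rintro ⟨⟨ha, hb⟩, h⟩
      by_cases hab : p a = b
      · right
        refine ⟨a, ⟨ha, ?_, ?_⟩, rfl, hab⟩
        · rw [hab]; exact h.ne.symm
        · rw [hab]; exact hb
      · left; exact ⟨⟨ha, hb⟩, h, hab⟩
    · rintro (⟨⟨ha, hb⟩, h, _⟩ | ⟨v, ⟨hv, h1, h2⟩, rfl, rfl⟩)
      · exact ⟨⟨ha, hb⟩, h⟩
      · exact ⟨⟨hv, h2⟩, hp.adj _ h1⟩
  rw [h1, Finset.card_union_of_disjoint, Finset.card_image_of_injective]
  · intro a b h
    exact (Prod.mk.injEq _ _ _ _ ▸ h).1
  · rw [Finset.disjoint_left]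
    rintro ⟨a, b⟩ h2 h3
    simp only [mem_filter, mem_product, mem_image, Prod.mk.injEq] at h2 h3
    simp only [minus_adj] at h2
    obtain ⟨v, _, rfl, rfl⟩ := h3
    exact h2.2.2 rfl

/-- The counting step. -/
lemma key_step (H : SimpleGraph V) (hH : H.CliqueFree 3) (p : V → V) (hp : IsMat H p)
    (hmax : ∀ q : V → V, IsMat H q → (supp q).card ≤ (supp p).card)
    (j : ℕ) (hj : 1 ≤ j) (S : Finset V)
    (hS : ∀ S' : Finset V, 2 * j * S.card + e2 (minus H p hp) Sᶜ ≤
      2 * j * S'.card + e2 (minus H p hp) S'ᶜ) :
    2 * S.card + (Sᶜ.filter (fun v => p v ≠ v ∧ p v ∈ Sᶜ)).card ≤ 2 * (supp p).card := by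
  set X := S.filter (fun v => p v = v) with hX
  set N := Sᶜ.filter (fun v => ∃ x ∈ X, H.Adj x v) with hN
  set P := Sᶜ.filter (fun v => p v ≠ v ∧ p v ∈ Sᶜ) with hP
  have hXS : X ⊆ S := Finset.filter_subset _ _
  have hNS : N ⊆ Sᶜ := Finset.filter_subset _ _
  -- every vertex of `N` is covered
  have hNcov : ∀ v ∈ N, p v ≠ v := by
    intro v hv h
    simp only [hN, mem_filter] at hv
    obtain ⟨_, x, hx, hadj⟩ := hv
    simp only [hX, mem_filter] at hx
    exact aug1 hp hmax hx.2 h hadj
  -- the matching has no edge inside `N`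
  have hNind : ∀ v ∈ N, p v ∉ N := by
    intro v hv hpv
    have hc := hNcov v hv
    simp only [hN, mem_filter] at hv hpv
    obtain ⟨_, x, hx, hadj⟩ := hv
    obtain ⟨_, y, hy, hadj'⟩ := hpv
    simp only [hX, mem_filter] at hx hy
    by_cases hxy : x = y
    · subst hxy
      refine hH {x, v, p v} ?_
      rw [SimpleGraph.is3Clique_iff]
      exact ⟨x, v, p v, hadj, hadj', hp.adj v hc, rfl⟩
    · exact aug2 hp hmax hx.2 hy.2 hxy hc hadj hadj'
  -- `|X| ≤ |N|`
  have hXN : X.card ≤ N.card := by
    by_contra hlt
    push Not at hlt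
    have h1 := hS ((S \ X) ∪ N)
    have hdisj : Disjoint (S \ X) N := by
      rw [Finset.disjoint_left]
      intro a ha hb
      have := hNS hb
      rw [mem_compl] at this
      exact this (mem_sdiff.1 ha).1
    have h2 : ((S \ X) ∪ N).card = S.card - X.card + N.card := by
      rw [Finset.card_union_of_disjoint hdisj, Finset.card_sdiff_of_subset hXS]
    have h3 : e2 (minus H p hp) ((S \ X) ∪ N)ᶜ ≤ e2 (minus H p hp) Sᶜ := by
      unfold e2
      refine Finset.card_le_card ?_
      rintro ⟨a, b⟩ hab
      simp only [mem_filter, mem_product, mem_compl, mem_union, mem_sdiff, not_or, not_and,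
        not_not] at hab ⊢
      obtain ⟨⟨⟨ha1, ha2⟩, ⟨hb1, hb2⟩⟩, hadj⟩ := hab
      have hadj' : H.Adj a b := hadj.1
      have hXfix : ∀ x ∈ X, p x = x := by
        intro x hx; simp only [hX, mem_filter] at hx; exact hx.2
      have haS : a ∉ S := by
        intro ha
        have haX := ha1 ha
        by_cases hb : b ∈ S
        · exact aug1 hp hmax (hXfix a haX) (hXfix b (hb1 hb)) hadj'
        · exact hb2 (by simp only [hN, mem_filter, mem_compl]; exact ⟨hb, a, haX, hadj'⟩)
      have hbS : b ∉ S := by
        intro hb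
        exact ha2 (by simp only [hN, mem_filter, mem_compl]; exact ⟨haS, b, hb1 hb, hadj'.symm⟩)
      exact ⟨⟨haS, hbS⟩, hadj⟩
    have h4 : X.card ≤ S.card := Finset.card_le_card hXS
    have h5 : ((S \ X) ∪ N).card < S.card := by omega
    have h6 : 2 * j * ((S \ X) ∪ N).card < 2 * j * S.card :=
      Nat.mul_lt_mul_of_pos_left h5 (by omega)
    omega
  -- decompositions
  set Dc := Sᶜ.filter (fun v => p v ≠ v) with hDc
  have h1 : (supp p).card = (S.filter (fun v => p v ≠ v)).card + Dc.card := by
    rw [← Finset.card_union_of_disjoint]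
    · congr 1
      ext v
      simp only [mem_supp, mem_union, hDc, mem_filter, mem_compl]
      tauto
    · rw [Finset.disjoint_left]
      intro a ha hb
      simp only [hDc, mem_filter, mem_compl] at ha hb
      exact hb.1 ha.1
  have h2 : S.card = X.card + (S.filter (fun v => p v ≠ v)).card := by
    rw [hX]
    exact (Finset.card_filter_add_card_filter_not (s := S) (fun v => p v = v)).symm
  have h3 : P.card = (P ∩ N).card + (P \ N).card := (Finset.card_inter_add_card_sdiff P N).symm
  have h4 : (P ∩ N).card ≤ (P \ N).card := by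
    refine Finset.card_le_card_of_injOn p ?_ ?_
    · intro v hv
      simp only [coe_inter, Set.mem_inter_iff, mem_coe] at hv
      have hvP := hv.1
      simp only [hP, mem_filter] at hvP
      simp only [coe_sdiff, Set.mem_sdiff, mem_coe]
      refine ⟨?_, hNind v hv.2⟩
      simp only [hP, mem_filter]
      refine ⟨hvP.2.2, ?_, ?_⟩
      · rw [hp.inv]; exact hvP.2.1.symm
      · rw [hp.inv]; exact hvP.1
    · intro a _ b _ h
      rw [← hp.inv a, h, hp.inv]
  have h5 : (P \ N).card + N.card ≤ Dc.card := by
    rw [← Finset.card_union_of_disjoint Finset.sdiff_disjoint]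
    refine Finset.card_le_card ?_
    intro v hv
    simp only [mem_union, mem_sdiff] at hv
    simp only [hDc, mem_filter]
    rcases hv with ⟨hv, _⟩ | hv
    · simp only [hP, mem_filter] at hv
      exact ⟨hv.1, hv.2.1⟩
    · exact ⟨hNS hv, hNcov v hv⟩
  omega

/-- The main combinatorial statement: `k` pairwise disjoint matchings whose total size is at least
half of `min_S (k|S| + e(H - S))`. -/
theorem main (k : ℕ) : ∀ (H : SimpleGraph V), H.CliqueFree 3 →
    ∃ (p : Fin (k + 1) → V → V) (S : Finset V), (∀ i, IsMat H (p i)) ∧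
      (∀ i j, i ≠ j → ∀ v, p i v ≠ v → p i v ≠ p j v) ∧
      2 * (k + 1) * S.card + e2 H Sᶜ ≤ 2 * ∑ i, (supp (p i)).card := by
  induction k with
  | zero =>
    intro H hH
    obtain ⟨p, hp, hmax⟩ := exists_max H
    refine ⟨fun _ => p, supp p, fun _ => hp, ?_, ?_⟩
    · intro i j hij
      exact absurd (Fin.ext (by omega)) hij
    · have h0 : e2 H (supp p)ᶜ = 0 := by
        unfold e2
        rw [Finset.card_eq_zero, Finset.filter_eq_empty_iff]
        rintro ⟨a, b⟩ hab
        simp only [mem_product, mem_compl, mem_supp, not_not] at hab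
        exact aug1 hp hmax hab.1 hab.2
      rw [h0]
      simp
  | succ k ih =>
    intro H hH
    obtain ⟨p, hp, hmax⟩ := exists_max H
    have hH' : (minus H p hp).CliqueFree 3 := by
      refine hH.anti ?_
      intro a b h
      exact h.1
    obtain ⟨q, S₀, hq1, hq2, hq3⟩ := ih (minus H p hp) hH'
    obtain ⟨S, -, hS⟩ := Finset.exists_min_image (univ : Finset (Finset V))
      (fun S => 2 * (k + 1) * S.card + e2 (minus H p hp) Sᶜ) ⟨S₀, mem_univ _⟩
    have hstep := key_step H hH p hp hmax (k + 1) (by omega) S (fun S' => hS S' (mem_univ _))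
    refine ⟨Fin.cons p q, S, ?_, ?_, ?_⟩
    · intro i
      refine Fin.cases ?_ ?_ i
      · exact hp
      · intro i
        simp only [Fin.cons_succ]
        exact ⟨(hq1 i).inv, fun v hv => ((hq1 i).adj v hv).1⟩
    · intro i j
      refine Fin.cases ?_ ?_ i
      · refine Fin.cases ?_ ?_ j
        · intro h; exact absurd rfl h
        · intro j _ v hv
          simp only [Fin.cons_zero, Fin.cons_succ] at hv ⊢
          intro h
          have h2 : q j v ≠ v := by rw [← h]; exact hv
          exact ((hq1 j).adj v h2).2 h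
      · intro i
        refine Fin.cases ?_ ?_ j
        · intro _ v hv
          simp only [Fin.cons_zero, Fin.cons_succ] at hv ⊢
          intro h
          exact ((hq1 i).adj v hv).2 h.symm
        · intro j hij v hv
          simp only [Fin.cons_succ] at hv ⊢
          exact hq2 i j (fun h => hij (by rw [h])) v hv
    · rw [Fin.sum_univ_succ]
      simp only [Fin.cons_zero, Fin.cons_succ]
      rw [e2_minus H p hp Sᶜ]
      have h1 := hS S₀ (mem_univ _)
      have h2 : 2 * (k + 1 + 1) * S.card = 2 * (k + 1) * S.card + 2 * S.card := by ring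
      rw [h2]
      omega

/-- An edge set that meets all triangles of `I_k ∨ H`. -/
lemma tau_le (H : SimpleGraph V) (hH : H.CliqueFree 3) (k : ℕ) (S : Finset V) :
    2 * tau (join k H) ≤ 2 * k * S.card + e2 H Sᶜ := by
  let Y1 : Finset (Sym2 (Fin k ⊕ V)) :=
    ((univ : Finset (Fin k)) ×ˢ S).image (fun x => s(Sum.inl x.1, Sum.inr x.2))
  let Y2 : Finset (Sym2 (Fin k ⊕ V)) :=
    ((Sᶜ ×ˢ Sᶜ).filter (fun x => H.Adj x.1 x.2)).image (fun x => s(Sum.inr x.1, Sum.inr x.2))
  have hY1 : Y1.card ≤ k * S.card := by
    refine Finset.card_image_le.trans ?_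
    rw [Finset.card_product, Finset.card_univ, Fintype.card_fin]
  have hY2 : 2 * Y2.card ≤ e2 H Sᶜ := by
    refine Finset.mul_card_image_le_card (s := (Sᶜ ×ˢ Sᶜ).filter (fun x => H.Adj x.1 x.2))
      (f := fun x => (s(Sum.inr x.1, Sum.inr x.2) : Sym2 (Fin k ⊕ V))) 2 ?_
    intro e he
    rw [mem_image] at he
    obtain ⟨⟨a, b⟩, hab, rfl⟩ := he
    simp only [mem_filter, mem_product] at hab
    have hne : ((a, b) : V × V) ≠ (b, a) := by
      intro h
      exact hab.2.ne (Prod.mk.injEq _ _ _ _ ▸ h).1
    rw [← Finset.card_pair hne]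
    refine Finset.card_le_card ?_
    intro x hx
    simp only [mem_insert, mem_singleton] at hx
    rcases hx with rfl | rfl
    · simp only [mem_filter, mem_product]
      exact ⟨hab, trivial⟩
    · simp only [mem_filter, mem_product]
      exact ⟨⟨⟨hab.1.2, hab.1.1⟩, hab.2.symm⟩, Sym2.eq_swap⟩
  have hmem : (Y1 ∪ Y2).card ∈ {n | ∃ Y : Finset (Sym2 (Fin k ⊕ V)),
      (∀ e ∈ Y, e ∈ (join k H).edgeSet) ∧
      ((join k H).deleteEdges (Y : Set (Sym2 (Fin k ⊕ V)))).CliqueFree 3 ∧ Y.card = n} := by
    refine ⟨Y1 ∪ Y2, ?_, ?_, rfl⟩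
    · intro e he
      rw [mem_union] at he
      rcases he with he | he
      · simp only [Y1, mem_image, mem_product, mem_univ, true_and] at he
        obtain ⟨⟨i, v⟩, _, rfl⟩ := he
        rw [SimpleGraph.mem_edgeSet]
        trivial
      · simp only [Y2, mem_image, mem_filter, mem_product] at he
        obtain ⟨⟨a, b⟩, hab, rfl⟩ := he
        rw [SimpleGraph.mem_edgeSet]
        exact hab.2
    · intro t ht
      rw [SimpleGraph.is3Clique_iff] at ht
      obtain ⟨a, b, c, hab, hac, hbc, rfl⟩ := ht
      rw [SimpleGraph.deleteEdges_adj] at hab hac hbc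
      simp only [mem_coe, mem_union, not_or] at hab hac hbc
      -- a triangle has exactly one vertex in `I_k` or lies in `H`
      have hA1 : ∀ (i : Fin k) (v : V), s(Sum.inl i, Sum.inr v) ∉ Y1 → v ∉ S := by
        intro i v h hv
        exact h (by simp only [Y1, mem_image, mem_product, mem_univ, true_and]; exact ⟨(i, v), hv, rfl⟩)
      have hA2 : ∀ (u v : V), H.Adj u v → s(Sum.inr u, Sum.inr v) ∉ Y2 → u ∈ S ∨ v ∈ S := by
        intro u v hadj h
        by_contra hcon
        push Not at hcon
        exact h (by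
          simp only [Y2, mem_image, mem_filter, mem_product, mem_compl]
          exact ⟨(u, v), ⟨⟨hcon.1, hcon.2⟩, hadj⟩, rfl⟩)
      have hkey : ∀ (i : Fin k) (u v : V), s(Sum.inl i, Sum.inr u) ∉ Y1 →
          s(Sum.inl i, Sum.inr v) ∉ Y1 → s(Sum.inr u, Sum.inr v) ∉ Y2 → H.Adj u v → False := by
        intro i u v h1 h2 h3 h4
        rcases hA2 u v h4 h3 with h | h
        · exact hA1 i u h1 h
        · exact hA1 i v h2 h
      rcases a with a | a <;> rcases b with b | b <;> rcases c with c | c
      · exact hab.1
      · exact hab.1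
      · exact hac.1
      · exact hkey a b c hab.2.1 hac.2.1 hbc.2.2 hbc.1
      · exact hbc.1
      · exact hkey b a c (by rw [Sym2.eq_swap]; exact hab.2.1) hbc.2.1 hac.2.2 hac.1
      · exact hkey c a b (by rw [Sym2.eq_swap]; exact hac.2.1)
          (by rw [Sym2.eq_swap]; exact hbc.2.1) hab.2.2 hab.1
      · refine hH {a, b, c} ?_
        rw [SimpleGraph.is3Clique_triple_iff]
        exact ⟨hab.1, hac.1, hbc.1⟩
  have h1 : tau (join k H) ≤ (Y1 ∪ Y2).card := Nat.sInf_le hmem
  have h2 := Finset.card_union_le Y1 Y2
  have h3 : 2 * k * S.card = 2 * (k * S.card) := by ring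
  omega

/-- `k` pairwise disjoint matchings of `H` give edge-disjoint triangles of `I_k ∨ H`. -/
lemma le_nu (H : SimpleGraph V) (k : ℕ) (p : Fin k → V → V) (hp : ∀ i, IsMat H (p i))
    (hd : ∀ i j, i ≠ j → ∀ v, p i v ≠ v → p i v ≠ p j v) :
    ∑ i, (supp (p i)).card ≤ 2 * nu (join k H) := by
  let A : Finset (Fin k × V) := (univ : Finset (Fin k × V)).filter (fun x => p x.1 x.2 ≠ x.2)
  let f : Fin k × V → Finset (Fin k ⊕ V) :=
    fun x => {Sum.inl x.1, Sum.inr x.2, Sum.inr (p x.1 x.2)}
  have hA : ∑ i, (supp (p i)).card = A.card := by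
    rw [Finset.card_eq_sum_card_fiberwise (f := Prod.fst) (t := univ) (fun _ _ => by simp)]
    refine Finset.sum_congr rfl ?_
    intro i _
    refine Finset.card_bij (fun v _ => (i, v)) ?_ ?_ ?_
    · intro v hv
      rw [mem_supp] at hv
      simp only [A, mem_filter, mem_univ, true_and]
      exact ⟨hv, trivial⟩
    · intro a _ b _ h
      exact (Prod.mk.injEq _ _ _ _ ▸ h).2
    · rintro ⟨j, v⟩ hv
      simp only [A, mem_filter, mem_univ, true_and] at hv
      obtain ⟨h1, h2⟩ := hv
      subst h2
      exact ⟨v, by rw [mem_supp]; exact h1, rfl⟩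
  have hfib : A.card ≤ 2 * (A.image f).card := by
    refine Finset.card_le_mul_card_image A 2 ?_
    intro t ht
    rw [mem_image] at ht
    obtain ⟨⟨i, v⟩, hv, rfl⟩ := ht
    have hsub : A.filter (fun x => f x = f (i, v)) ⊆ {(i, v), (i, p i v)} := by
      rintro ⟨j, w⟩ hw
      simp only [mem_filter] at hw
      have hEq := hw.2
      have h1 : (Sum.inl j : Fin k ⊕ V) ∈ f (i, v) := by
        rw [← hEq]; simp [f]
      have h2 : (Sum.inr w : Fin k ⊕ V) ∈ f (i, v) := by
        rw [← hEq]; simp [f]
      simp only [f, mem_insert, mem_singleton, Sum.inl.injEq, reduceCtorEq, or_false] at h1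
      simp only [f, mem_insert, mem_singleton, Sum.inr.injEq, reduceCtorEq, false_or] at h2
      simp only [mem_insert, mem_singleton, Prod.mk.injEq]
      rcases h2 with h2 | h2
      · exact Or.inl ⟨h1, h2⟩
      · exact Or.inr ⟨h1, h2⟩
    exact (Finset.card_le_card hsub).trans Finset.card_le_two
  have hle : (A.image f).card ≤ nu (join k H) := by
    refine le_csSup ?_ ?_
    · refine ⟨Fintype.card (Finset (Fin k ⊕ V)), ?_⟩
      rintro n ⟨T, _, _, rfl⟩
      exact Finset.card_le_univ T
    · refine ⟨A.image f, ?_, ?_, rfl⟩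
      · intro t ht
        rw [mem_image] at ht
        obtain ⟨⟨i, v⟩, hv, rfl⟩ := ht
        simp only [A, mem_filter, mem_univ, true_and] at hv
        simp only [f]
        rw [SimpleGraph.is3Clique_triple_iff]
        exact ⟨trivial, trivial, (hp i).adj v hv⟩
      · intro t ht t' ht' hne
        rw [mem_image] at ht ht'
        obtain ⟨⟨i, v⟩, hv, rfl⟩ := ht
        obtain ⟨⟨j, w⟩, hw, rfl⟩ := ht'
        simp only [A, mem_filter, mem_univ, true_and] at hv hw
        rw [Finset.card_le_one]
        by_contra hcon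
        push Not at hcon
        obtain ⟨a, ha, b, hb, hab⟩ := hcon
        simp only [f, mem_inter, mem_insert, mem_singleton] at ha hb
        apply hne
        -- matching facts
        have hiv := (hp i).inv v
        have hjw := (hp j).inv w
        have key : ∀ (x y : V), x ≠ y → (x = v ∨ x = p i v) → (y = v ∨ y = p i v) →
            (x = w ∨ x = p j w) → (y = w ∨ y = p j w) → f (i, v) = f (j, w) := by
          intro x y hxy h1 h2 h3 h4
          have hxi : p i x = y := by
            rcases h1 with rfl | rfl <;> rcases h2 with rfl | rfl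
            · exact absurd rfl hxy
            · rfl
            · exact hiv
            · exact absurd rfl hxy
          have hxj : p j x = y := by
            rcases h3 with rfl | rfl <;> rcases h4 with rfl | rfl
            · exact absurd rfl hxy
            · rfl
            · exact hjw
            · exact absurd rfl hxy
          have hij : i = j := by
            by_contra hij
            exact hd i j hij x (by rw [hxi]; exact hxy.symm) (by rw [hxi, hxj])
          subst hij
          have : w = v ∨ w = p i v := by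
            rcases h3 with h3 | h3
            · rw [← h3]; exact h1
            · have : w = p i x := by rw [h3, hjw]
              rw [this, hxi]; exact h2
          rcases this with rfl | rfl
          · rfl
          · simp only [f]
            rw [hiv]
            congr 1
            exact Finset.pair_comm _ _
        have key2 : ∀ (x : V), i = j → (x = v ∨ x = p i v) → (x = w ∨ x = p j w) →
            f (i, v) = f (j, w) := by
          intro x hij h1 h2
          subst hij
          have : w = v ∨ w = p i v := by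
            rcases h2 with h2 | h2
            · rw [← h2]; exact h1
            · have hw' : w = p i x := by rw [h2, hjw]
              rcases h1 with h1 | h1
              · right; rw [hw', h1]
              · left; rw [hw', h1, hiv]
          rcases this with rfl | rfl
          · rfl
          · simp only [f]
            rw [hiv]
            congr 1
            exact Finset.pair_comm _ _
        rcases a with a | a <;> rcases b with b | b
        · simp only [Sum.inl.injEq, reduceCtorEq, or_false] at ha hb
          exact absurd (by rw [ha.1, hb.1]) hab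
        · simp only [Sum.inl.injEq, Sum.inr.injEq, reduceCtorEq, or_false, false_or] at ha hb
          exact key2 b (by rw [← ha.1, ← ha.2]) hb.1 hb.2
        · simp only [Sum.inl.injEq, Sum.inr.injEq, reduceCtorEq, or_false, false_or] at ha hb
          exact key2 a (by rw [← hb.1, ← hb.2]) ha.1 ha.2
        · simp only [Sum.inr.injEq, reduceCtorEq, false_or] at ha hb
          exact key a b (fun h => hab (by rw [h])) ha.1 hb.1 ha.2 hb.2
  omega

/-- **Tuza's inequality for `I_k ∨ H`.**  For every finite triangle-free graph `H` and every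
`k ≥ 1`, `τ(I_k ∨ H) ≤ 2 ν(I_k ∨ H)`. -/
theorem result {V : Type u} [Fintype V] (H : SimpleGraph V) (hH : H.CliqueFree 3) (k : ℕ)
    (hk : 1 ≤ k) : tau (join k H) ≤ 2 * nu (join k H) := by
  obtain ⟨m, rfl⟩ : ∃ m, k = m + 1 := ⟨k - 1, by omega⟩
  obtain ⟨p, S, hp, hd, hle⟩ := main m H hH
  have h1 := tau_le H hH (m + 1) S
  have h2 := le_nu H (m + 1) p hp hd
  omega

end

end Pool.Agent.Results.MP_6ac7a2_co.TuzaJoin
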